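import Pool.Agent.Helper67_ZOL.Relab

/-!
# DLOC2: the local differences for the two arrow formula
-/

namespace Pool.Agent.ZOL.H67

open Finset

/-- all the distributions -/
def dist (r o : Bool) : List (Word × Word × Word × Word) :=
  (([], [], [], []) : Word × Word × Word × Word) :: splits (3, r, o) (bar (3, r, o))

theorem check2a : ∀ t m d e r o : Bool, ∀ q ∈ dist r o,
    dloc P2 0 1 2 (topPair 0 1 t m d e) (midPair 0 2 t m d e) (botPair 1 2 t m d e)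
      q.1 q.2.1 q.2.2.1 q.2.2.2 = 0 := by
  decide +kernel

theorem check2b : ∀ t m d e r o : Bool, ∀ q ∈ dist r o,
    dloc P2 0 1 2 (topPair 0 1 t m d e) (botPair 1 2 t m d e) (midPair 0 2 t m d e)
      q.1 q.2.1 q.2.2.1 q.2.2.2 = 0 := by
  decide +kernel

theorem check2c : ∀ t m d e r o : Bool, ∀ q ∈ dist r o,
    dloc P2 0 1 2 (midPair 0 2 t m d e) (topPair 0 1 t m d e) (botPair 1 2 t m d e)
      q.1 q.2.1 q.2.2.1 q.2.2.2 = 0 := by
  decide +kernel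

theorem check2d : ∀ t m d e r o : Bool, ∀ q ∈ dist r o,
    dloc P2 0 1 2 (midPair 0 2 t m d e) (botPair 1 2 t m d e) (topPair 0 1 t m d e)
      q.1 q.2.1 q.2.2.1 q.2.2.2 = 0 := by
  decide +kernel

theorem check2e : ∀ t m d e r o : Bool, ∀ q ∈ dist r o,
    dloc P2 0 1 2 (botPair 1 2 t m d e) (topPair 0 1 t m d e) (midPair 0 2 t m d e)
      q.1 q.2.1 q.2.2.1 q.2.2.2 = 0 := by
  decide +kernel

theorem check2f : ∀ t m d e r o : Bool, ∀ q ∈ dist r o,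
    dloc P2 0 1 2 (botPair 1 2 t m d e) (midPair 0 2 t m d e) (topPair 0 1 t m d e)
      q.1 q.2.1 q.2.2.1 q.2.2.2 = 0 := by
  decide +kernel

theorem dist_relab (a b c x : ℕ) (l₀ l₁ l₂ l₃ : Word) (y : Letter) (hy : y.1 = x)
    (h : l₀ ++ l₁ ++ l₂ ++ l₃ = [] ∨ l₀ ++ l₁ ++ l₂ ++ l₃ = [y, bar y]) :
    ∃ q ∈ dist y.2.1 y.2.2,
      l₀ = relab (sg a b c x) q.1 ∧ l₁ = relab (sg a b c x) q.2.1 ∧
      l₂ = relab (sg a b c x) q.2.2.1 ∧ l₃ = relab (sg a b c x) q.2.2.2 := by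
  rcases h with h | h
  · simp only [List.append_eq_nil_iff] at h
    obtain ⟨⟨⟨h0, h1⟩, h2⟩, h3⟩ := h
    refine ⟨([], [], [], []), List.mem_cons_self, ?_⟩
    rw [h0, h1, h2, h3]
    exact ⟨rfl, rfl, rfl, rfl⟩
  · obtain ⟨q, hq, h1⟩ := split_relab a b c x l₀ l₁ l₂ l₃ y hy h
    exact ⟨q, List.mem_cons_of_mem _ hq, h1⟩

theorem dloc2 : DLoc2Stmt := by
  intro s₁ s₂ s₃ l₀ l₁ l₂ l₃ a b c x t m d e y hp hab hac hbc hxa hxb hxc hy h
  obtain ⟨q, hq, h0, h1, h2, h3⟩ := dist_relab a b c x l₀ l₁ l₂ l₃ y hy h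
  have hσ := sg_inj hab hac hbc hxa hxb hxc
  have hT := top_relab a b c x t m d e
  have hM := mid_relab a b c x t m d e
  have hB := bot_relab a b c x t m d e
  have key := fun s s' s'' : Word => dloc_relab hσ P2 0 1 2 s s' s'' q.1 q.2.1 q.2.2.1 q.2.2.2
  have e0 : sg a b c x 0 = a := rfl
  have e1 : sg a b c x 1 = b := rfl
  have e2 : sg a b c x 2 = c := rfl
  rw [e0, e1, e2] at key
  rcases perm3 hp with ⟨g1, g2, g3⟩ | ⟨g1, g2, g3⟩ | ⟨g1, g2, g3⟩ | ⟨g1, g2, g3⟩ |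
    ⟨g1, g2, g3⟩ | ⟨g1, g2, g3⟩
  · rw [g1, g2, g3, hT, hM, hB, h0, h1, h2, h3, key]
    exact check2a t m d e _ _ q hq
  · rw [g1, g2, g3, hT, hM, hB, h0, h1, h2, h3, key]
    exact check2b t m d e _ _ q hq
  · rw [g1, g2, g3, hT, hM, hB, h0, h1, h2, h3, key]
    exact check2c t m d e _ _ q hq
  · rw [g1, g2, g3, hT, hM, hB, h0, h1, h2, h3, key]
    exact check2d t m d e _ _ q hq
  · rw [g1, g2, g3, hT, hM, hB, h0, h1, h2, h3, key]
    exact check2e t m d e _ _ q hq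
  · rw [g1, g2, g3, hT, hM, hB, h0, h1, h2, h3, key]
    exact check2f t m d e _ _ q hq

end Pool.Agent.ZOL.H67
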