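import Pool.Agent.Helper67_ZOL.Relab

/-!
# DLOC3T: the local differences for the three arrow formula, order top, bottom, middle
-/

namespace Pool.Agent.ZOL.H67

open Finset

theorem check3T0 : ∀ t m d e : Bool,
    dloc P3 0 1 2 (topPair 0 1 t m d e) (botPair 1 2 t m d e) (midPair 0 2 t m d e) [] [] [] [] =
      -(bs t * bs m * bs d) * kap t m d e := by
  decide +kernel

theorem check3T1 : ∀ t m d e r o : Bool, ∀ q ∈ splits (3, r, o) (bar (3, r, o)),
    dloc P3 0 1 2 (topPair 0 1 t m d e) (botPair 1 2 t m d e) (midPair 0 2 t m d e)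
      q.1 q.2.1 q.2.2.1 q.2.2.2 = (bs t * bs m * bs d) * (J q.2.2.1 q.1 + J q.2.2.1 q.2.2.2) := by
  decide +kernel

theorem dloc3T : DLoc3TStmt := by
  intro l₀ l₁ l₂ l₃ a b c x t m d e y hab hac hbc hxa hxb hxc hy
  have hσ := sg_inj hab hac hbc hxa hxb hxc
  have hT := top_relab a b c x t m d e
  have hM := mid_relab a b c x t m d e
  have hB := bot_relab a b c x t m d e
  have key := fun s s' s'' l l' l'' l''' : Word => dloc_relab hσ P3 0 1 2 s s' s'' l l' l'' l'''
  have e0 : sg a b c x 0 = a := rfl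
  have e1 : sg a b c x 1 = b := rfl
  have e2 : sg a b c x 2 = c := rfl
  rw [e0, e1, e2] at key
  constructor
  · have hk := key (topPair 0 1 t m d e) (botPair 1 2 t m d e) (midPair 0 2 t m d e) [] [] [] []
    rw [← hT, ← hM, ← hB, check3T0] at hk
    exact hk
  · intro h
    obtain ⟨q, hq, h0, h1, h2, h3⟩ := split_relab a b c x l₀ l₁ l₂ l₃ y hy h
    rw [hT, hM, hB, h0, h1, h2, h3, key, J_relab hσ, J_relab hσ]
    exact check3T1 t m d e _ _ q hq

end Pool.Agent.ZOL.H67
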