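import Pool.Agent.Helper40_ZOL.Stmts

/-!
# Relabelling of the local differences
-/

namespace Pool.Agent.ZOL.H67

open Finset

/-- the ways to distribute two letters over four slots -/
def splits (y z : Letter) : List (Word × Word × Word × Word) :=
  [([y, z], [], [], []), ([y], [z], [], []), ([y], [], [z], []), ([y], [], [], [z]),
    ([], [y, z], [], []), ([], [y], [z], []), ([], [y], [], [z]), ([], [], [y, z], []),
    ([], [], [y], [z]), ([], [], [], [y, z])]

theorem mem_splits (l₀ l₁ l₂ l₃ : Word) (y z : Letter) (h : l₀ ++ l₁ ++ l₂ ++ l₃ = [y, z]) :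
    (l₀, l₁, l₂, l₃) ∈ splits y z := by
  unfold splits
  rcases l₀ with _ | ⟨p, _ | ⟨q, l₀⟩⟩
  · rcases l₁ with _ | ⟨p, _ | ⟨q, l₁⟩⟩
    · rcases l₂ with _ | ⟨p, _ | ⟨q, l₂⟩⟩
      · simp at h
        simp [h]
      · simp at h
        simp [h]
      · simp at h
        simp [h]
    · rcases l₂ with _ | ⟨p, _ | ⟨q, l₂⟩⟩
      · simp at h
        simp [h]
      · simp at h
        simp [h]
      · simp at h
    · simp at h
      simp [h]
  · rcases l₁ with _ | ⟨q, l₁⟩
    · rcases l₂ with _ | ⟨q, l₂⟩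
      · simp at h
        simp [h]
      · simp at h
        simp [h]
    · simp at h
      simp [h]
  · simp at h
    simp [h]

theorem perm2 {α : Type} {s₁ s₂ A B : α} (h : [s₁, s₂].Perm [A, B]) :
    (s₁ = A ∧ s₂ = B) ∨ (s₁ = B ∧ s₂ = A) := by
  have h1 : s₁ ∈ [A, B] := h.subset (by simp)
  simp only [List.mem_cons, List.not_mem_nil, or_false] at h1
  rcases h1 with h1 | h1
  · subst h1
    have h2 := List.Perm.cons_inv h
    rw [List.perm_singleton] at h2
    left
    simp at h2
    exact ⟨rfl, h2⟩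
  · subst h1
    have h2 := List.Perm.cons_inv (h.trans (List.Perm.swap _ _ _))
    rw [List.perm_singleton] at h2
    right
    simp at h2
    exact ⟨rfl, h2⟩

theorem perm3 {α : Type} {s₁ s₂ s₃ A B C : α} (h : [s₁, s₂, s₃].Perm [A, B, C]) :
    (s₁ = A ∧ s₂ = B ∧ s₃ = C) ∨ (s₁ = A ∧ s₂ = C ∧ s₃ = B) ∨
    (s₁ = B ∧ s₂ = A ∧ s₃ = C) ∨ (s₁ = B ∧ s₂ = C ∧ s₃ = A) ∨
    (s₁ = C ∧ s₂ = A ∧ s₃ = B) ∨ (s₁ = C ∧ s₂ = B ∧ s₃ = A) := by
  have h1 : s₁ ∈ [A, B, C] := h.subset (by simp)
  simp only [List.mem_cons, List.not_mem_nil, or_false] at h1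
  rcases h1 with h1 | h1 | h1
  · subst h1
    rcases perm2 (List.Perm.cons_inv h) with ⟨h2, h3⟩ | ⟨h2, h3⟩
    · left; exact ⟨rfl, h2, h3⟩
    · right; left; exact ⟨rfl, h2, h3⟩
  · subst h1
    rcases perm2 (List.Perm.cons_inv (h.trans (List.Perm.swap _ _ _))) with ⟨h2, h3⟩ | ⟨h2, h3⟩
    · right; right; left; exact ⟨rfl, h2, h3⟩
    · right; right; right; left; exact ⟨rfl, h2, h3⟩
  · subst h1
    have h4 : [A, B, s₁].Perm [s₁, A, B] :=
      ((List.Perm.swap _ _ _).cons _).trans (List.Perm.swap _ _ _)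
    rcases perm2 (List.Perm.cons_inv (h.trans h4)) with ⟨h2, h3⟩ | ⟨h2, h3⟩
    · right; right; right; right; left; exact ⟨rfl, h2, h3⟩
    · right; right; right; right; right; exact ⟨rfl, h2, h3⟩

/-! ### Relabelling -/

theorem relab_append (σ : ℕ → ℕ) (w w' : Word) :
    relab σ (w ++ w') = relab σ w ++ relab σ w' := by
  unfold relab
  rw [List.map_append]

theorem relab_reverse (σ : ℕ → ℕ) (w : Word) :
    relab σ w.reverse = (relab σ w).reverse := by
  unfold relab
  rw [List.map_reverse]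

theorem idxOf_map {σ : ℕ → ℕ} (hσ : Function.Injective σ) (n : ℕ) (L : List ℕ) :
    (L.map σ).idxOf (σ n) = L.idxOf n := by
  induction L with
  | nil => rfl
  | cons a L ih =>
    rw [List.map_cons, List.idxOf_cons, List.idxOf_cons, ih]
    by_cases h : a = n
    · subst h
      simp
    · have h1 : σ a ≠ σ n := fun h2 => h (hσ h2)
      have h2 : (σ a == σ n) = false := by simpa using h1
      have h3 : (a == n) = false := by simpa using h
      rw [h2, h3]

theorem shape_relab {σ : ℕ → ℕ} (hσ : Function.Injective σ) (w : Word) :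
    shape (relab σ w) = shape w := by
  unfold shape relab
  rw [List.map_map, List.map_map]
  refine List.map_congr_left fun l _ => ?_
  have h : List.map (Prod.fst ∘ fun l : Letter => (σ l.1, l.2)) w =
      (w.map Prod.fst).map σ := by
    rw [List.map_map]
    rfl
  simp only [Function.comp_apply]
  rw [h, idxOf_map hσ]

theorem wsgn_relab (σ : ℕ → ℕ) (w : Word) : wsgn (relab σ w) = wsgn w := by
  unfold wsgn relab
  rw [List.filter_map, List.map_map]
  rfl

theorem f_relab {σ : ℕ → ℕ} (hσ : Function.Injective σ) (P : List (List (ℕ × Bool))) (w : Word) :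
    f P (relab σ w) = f P w := by
  unfold f
  rw [shape_relab hσ, wsgn_relab]

theorem sub_relab {σ : ℕ → ℕ} (hσ : Function.Injective σ) (S : Finset ℕ) (w : Word) :
    sub (S.image σ) (relab σ w) = relab σ (sub S w) := by
  unfold sub relab
  rw [List.filter_map]
  congr 1
  refine List.filter_congr fun l _ => ?_
  simp only [Function.comp_apply]
  rw [decide_eq_decide]
  exact Function.Injective.mem_finset_image hσ

theorem dloc_relab {σ : ℕ → ℕ} (hσ : Function.Injective σ) (P : List (List (ℕ × Bool)))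
    (a b c : ℕ) (s₁ s₂ s₃ l₀ l₁ l₂ l₃ : Word) :
    dloc P (σ a) (σ b) (σ c) (relab σ s₁) (relab σ s₂) (relab σ s₃) (relab σ l₀) (relab σ l₁)
      (relab σ l₂) (relab σ l₃) = dloc P a b c s₁ s₂ s₃ l₀ l₁ l₂ l₃ := by
  have h2 : ∀ p q : ℕ, ({σ p, σ q} : Finset ℕ) = ({p, q} : Finset ℕ).image σ := by
    intro p q
    rw [Finset.image_insert, Finset.image_singleton]
  have h3 : ∀ (p : ℕ) (S : Finset ℕ), insert (σ p) (S.image σ) = (insert p S).image σ := by
    intro p S
    rw [Finset.image_insert]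
  unfold dloc
  simp only [List.map_cons, List.map_nil, h2, h3, sub_relab hσ, ← relab_reverse, ← relab_append,
    f_relab hσ]

/-- the relabelling map -/
def sg (a b c x n : ℕ) : ℕ :=
  if n = 0 then a else if n = 1 then b else if n = 2 then c else if n = 3 then x
  else a + b + c + x + n

theorem sg_inj {a b c x : ℕ} (hab : a ≠ b) (hac : a ≠ c) (hbc : b ≠ c) (hxa : x ≠ a)
    (hxb : x ≠ b) (hxc : x ≠ c) : Function.Injective (sg a b c x) := by
  intro n k h
  unfold sg at h
  split_ifs at h <;> omega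

theorem top_relab (a b c x : ℕ) (t m d e : Bool) :
    topPair a b t m d e = relab (sg a b c x) (topPair 0 1 t m d e) := by
  unfold topPair
  cases t <;> rfl

theorem mid_relab (a b c x : ℕ) (t m d e : Bool) :
    midPair a c t m d e = relab (sg a b c x) (midPair 0 2 t m d e) := by
  unfold midPair
  cases m <;> rfl

theorem bot_relab (a b c x : ℕ) (t m d e : Bool) :
    botPair b c t m d e = relab (sg a b c x) (botPair 1 2 t m d e) := by
  unfold botPair
  cases d <;> rfl

theorem split_relab (a b c x : ℕ) (l₀ l₁ l₂ l₃ : Word) (y : Letter) (hy : y.1 = x)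
    (h : l₀ ++ l₁ ++ l₂ ++ l₃ = [y, bar y]) :
    ∃ q ∈ splits (3, y.2.1, y.2.2) (bar (3, y.2.1, y.2.2)),
      l₀ = relab (sg a b c x) q.1 ∧ l₁ = relab (sg a b c x) q.2.1 ∧
      l₂ = relab (sg a b c x) q.2.2.1 ∧ l₃ = relab (sg a b c x) q.2.2.2 := by
  have h1 := mem_splits _ _ _ _ _ _ h
  obtain ⟨x', r, o⟩ := y
  subst hy
  have h2 : splits (x', r, o) (bar (x', r, o)) =
      (splits (3, r, o) (bar (3, r, o))).map (fun q => (relab (sg a b c x') q.1,
        relab (sg a b c x') q.2.1, relab (sg a b c x') q.2.2.1, relab (sg a b c x') q.2.2.2)) := by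
    rfl
  rw [h2, List.mem_map] at h1
  obtain ⟨q, hq, h3⟩ := h1
  simp only [Prod.mk.injEq] at h3
  exact ⟨q, hq, h3.1.symm, h3.2.1.symm, h3.2.2.1.symm, h3.2.2.2.symm⟩

theorem J_relab {σ : ℕ → ℕ} (hσ : Function.Injective σ) (l l' : Word) :
    J (relab σ l) (relab σ l') = J l l' := by
  unfold J relab
  rw [List.filter_map, List.map_map]
  congr 1
  have h : ∀ x : Letter, (bar (σ x.1, x.2) ∈ l'.map fun l => (σ l.1, l.2)) ↔ bar x ∈ l' := by
    intro x
    have h1 : bar (σ x.1, x.2) = (fun l : Letter => (σ l.1, l.2)) (bar x) := rfl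
    rw [h1]
    refine List.mem_map_of_injective ?_
    intro p q hpq
    simp only [Prod.mk.injEq] at hpq
    exact Prod.ext (hσ hpq.1) hpq.2
  have h2 : (l.filter ((fun x => decide (bar x ∈ l'.map fun l => (σ l.1, l.2))) ∘
      fun l => (σ l.1, l.2))) = l.filter (fun x => decide (bar x ∈ l')) := by
    refine List.filter_congr fun x _ => ?_
    simp only [Function.comp_apply]
    rw [decide_eq_decide]
    exact h x
  rw [h2]
  rfl

end Pool.Agent.ZOL.H67
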